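import Pool.Agent.Helper93.TH3.StD

/-!
# Project TH3, module UNB (model: `Helper97/TH/M_Unb.lean`)
-/

set_option autoImplicit false

namespace Pool.Agent.Helper81.TH3

open Pool.Agent.Helper14.CV (Homog EqC act Tl)
open Pool.Agent.Helper93.TH3
open Pool.Agent.Helper93.TLH (HTy SymH)

/-- The potential `G(3^r p, q)` with complex values. -/
private def Go (r : ℕ) (G : ℤ → ℤ → ℤ) : ℤ → ℤ → ℂ := fun p q => ((G (3 ^ r * p) q : ℤ) : ℂ)

private lemma two_dvd_of (t : ℕ) {x : ℤ} (h : (2 : ℤ) ∣ 3 ^ t * x) : (2 : ℤ) ∣ x := by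
  rcases Int.prime_two.dvd_or_dvd h with h1 | h1
  · exact absurd (Int.prime_two.dvd_of_dvd_pow h1) (by norm_num)
  · exact h1

private lemma three_or (r : ℕ) {p q : ℤ} (h : p ≠ 0 ∨ q ≠ 0) : (3 ^ r * p ≠ 0 ∨ q ≠ 0) := by
  rcases h with h0 | h0
  · exact Or.inl (mul_ne_zero (by positivity) h0)
  · exact Or.inr h0

private lemma hty_of {r s : ℕ} {a b c c' d : ℤ} (h : HTy a b c d) (hc : c = 3 ^ (r + s) * c') :
    HTy a (3 ^ r * b) (3 ^ s * c') d := by
  have e : a * d - 3 ^ r * b * (3 ^ s * c') = a * d - b * c := by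
    rw [hc, pow_add]
    ring
  have h2 : (2 : ℤ) ∣ c → (2 : ℤ) ∣ 3 ^ s * c' := by
    intro h0
    rw [hc] at h0
    exact Dvd.dvd.mul_left (two_dvd_of _ h0) _
  rcases h with ⟨h0, h1⟩ | ⟨h0, h1, h3, h4⟩
  · exact Or.inl ⟨by rw [e, h0], h2 h1⟩
  · exact Or.inr ⟨by rw [e, h0], h1, h2 h3, h4⟩

private lemma sym_Go {r s : ℕ} {G : ℤ → ℤ → ℤ} (h : SymH 3 r s G) : SymH 3 0 (r + s) (Go r G) := by
  refine ⟨?_, ?_⟩
  · intro k p q hk hpq
    have e := h.1 k (3 ^ r * p) q hk (three_or r hpq)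
    have e1 : 3 ^ r * (k * p) = k * (3 ^ r * p) := by ring
    simp only [Go]
    rw [e1, e]
  · intro a b c d hdet _ hc
    obtain ⟨c', hc'⟩ := hc
    rw [Nat.cast_ofNat] at hc'
    obtain ⟨k, hk⟩ := h.2 a (3 ^ r * b) (3 ^ s * c') d (hty_of hdet hc')
      (by rw [Nat.cast_ofNat]; exact Dvd.intro _ rfl) (by rw [Nat.cast_ofNat]; exact Dvd.intro _ rfl)
    refine ⟨(k : ℂ), ?_⟩
    intro p q hpq
    have e := hk (3 ^ r * p) q (three_or r hpq)
    simp only [act, Go] at e ⊢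
    have e1 : 3 ^ r * (a * p + b * q) = a * (3 ^ r * p) + 3 ^ r * b * q := by ring
    have e2 : c * p + d * q = 3 ^ s * c' * (3 ^ r * p) + d * q := by
      rw [hc', pow_add]
      ring
    rw [e1, e2, e]
    push_cast
    ring

private lemma Tl_Go (l r : ℕ) (G : ℤ → ℤ → ℤ) : Tl l 1 (Go r G) = Go r (Tl l (3 ^ r) G) := by
  funext p q
  simp only [Tl, Go]
  rw [Int.cast_add, Int.cast_sum]
  congr 1
  · congr 2
    ring
  · refine Finset.sum_congr rfl ?_
    intro j _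
    congr 2
    ring

private lemma Go_add (r : ℕ) (G H : ℤ → ℤ → ℤ) : Go r (G + H) = Go r G + Go r H := by
  funext p q
  simp only [Go, Pi.add_apply, Int.cast_add]

private lemma Go_sub (r : ℕ) (G H : ℤ → ℤ → ℤ) : Go r (G - H) = Go r G - Go r H := by
  funext p q
  simp only [Go, Pi.sub_apply, Int.cast_sub]

private lemma Go_smul (r : ℕ) (n : ℤ) (G : ℤ → ℤ → ℤ) : Go r (n • G) = n • Go r G := by
  funext p q
  simp only [Go, Pi.smul_apply, zsmul_eq_mul, smul_eq_mul, Int.cast_mul]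

private lemma Po_Go (r c : ℕ) (G : ℤ → ℤ → ℤ) : PoT 1 c (Go r G) = Go r (PoT (3 ^ r) c G) := by
  unfold PoT
  split_ifs
  · rw [Go_add, Tl_Go]
  · rw [Tl_Go]
  · rfl

private lemma Uo_Go (r : ℕ) (G : ℤ → ℤ → ℤ) : UoT 1 (Go r G) = Go r (UoT (3 ^ r) G) := by
  unfold UoT
  rw [Go_add, Tl_Go]

private lemma Vo_Go (r : ℕ) (G : ℤ → ℤ → ℤ) : VoT 1 (Go r G) = Go r (VoT (3 ^ r) G) := by
  unfold VoT
  rw [Go_sub, Go_sub, Go_sub, Go_add]
  simp only [Tl_Go]

private lemma homog_Tl {G : ℤ → ℤ → ℤ} (l : ℕ) (hl : 0 < l) (m : ℤ) (h : Homog G) :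
    Homog (Tl l m G) := by
  intro k p q hk hpq
  have hl0 : (l : ℤ) ≠ 0 := by exact_mod_cast hl.ne'
  simp only [Tl]
  congr 1
  · have e := h k (l * p) q hk (by
      rcases hpq with h0 | h0
      · exact Or.inl (mul_ne_zero hl0 h0)
      · exact Or.inr h0)
    rw [← e]
    congr 1
    ring
  · refine Finset.sum_congr rfl ?_
    intro j _
    have e := h k (p + m * j * q) (l * q) hk (by
      by_cases hq : q = 0
      · left
        rcases hpq with h0 | h0
        · rw [hq, mul_zero, add_zero]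
          exact h0
        · exact absurd hq h0
      · exact Or.inr (mul_ne_zero hl0 hq))
    rw [← e]
    congr 1
    · ring
    · ring

private lemma homog_Po {G : ℤ → ℤ → ℤ} (m : ℤ) (c : ℕ) (h : Homog G) : Homog (PoT m c G) := by
  have h1 := homog_Tl 7 (by norm_num) m h
  have h2 := homog_Tl 5 (by norm_num) m h
  unfold PoT
  split_ifs
  · intro k p q hk hpq
    simp only [Pi.add_apply]
    rw [h1 k p q hk hpq, h k p q hk hpq]
  · exact h2
  · exact h

private lemma homog_Uo {G : ℤ → ℤ → ℤ} (m : ℤ) (h : Homog G) : Homog (UoT m G) := by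
  have h3 := homog_Tl 13 (by norm_num) m h
  intro k p q hk hpq
  unfold UoT
  simp only [Pi.add_apply]
  rw [h k p q hk hpq, h3 k p q hk hpq]

private lemma homog_Vo {G : ℤ → ℤ → ℤ} (m : ℤ) (h : Homog G) : Homog (VoT m G) := by
  have h1 := homog_Tl 31 (by norm_num) m h
  have h2 := homog_Tl 5 (by norm_num) m (homog_Tl 5 (by norm_num) m h)
  have h3 := homog_Tl 7 (by norm_num) m h
  have h4 := homog_Tl 13 (by norm_num) m h
  intro k p q hk hpq
  unfold VoT
  simp only [Pi.sub_apply, Pi.add_apply]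
  rw [h1 k p q hk hpq, h2 k p q hk hpq, h3 k p q hk hpq, h4 k p q hk hpq, h k p q hk hpq]

private lemma iter_Go {O : (ℤ → ℤ → ℂ) → (ℤ → ℤ → ℂ)} {P : (ℤ → ℤ → ℤ) → (ℤ → ℤ → ℤ)} (r : ℕ)
    (h : ∀ G, O (Go r G) = Go r (P G)) (G : ℤ → ℤ → ℤ) (i : ℕ) :
    O^[i] (Go r G) = Go r (P^[i] G) := by
  induction i with
  | zero => rfl
  | succ i ih => rw [Function.iterate_succ_apply', Function.iterate_succ_apply', ih, h]

private lemma iter_homog {P : (ℤ → ℤ → ℤ) → (ℤ → ℤ → ℤ)} (hP : ∀ G, Homog G → Homog (P G))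
    {G : ℤ → ℤ → ℤ} (h : Homog G) (i : ℕ) : Homog (P^[i] G) := by
  induction i with
  | zero => exact h
  | succ i ih =>
    rw [Function.iterate_succ_apply']
    exact hP _ ih

/-- **Module UNB.** -/
theorem hUnb : TUnb := by
  intro r s G hG
  refine ⟨sym_Go hG, ?_⟩
  intro c i j
  change evT 1 (Go r G) c i j = _
  unfold evT
  rw [Po_Go r, iter_Go r (Vo_Go r), iter_Go r (Uo_Go r)]
  have hH : Homog ((UoT (3 ^ r))^[i] ((VoT (3 ^ r))^[j] (PoT (3 ^ r) c G))) :=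
    iter_homog (fun G h => homog_Uo _ h) (iter_homog (fun G h => homog_Vo _ h)
      (homog_Po _ c hG.1) j) i
  have e := hH (3 ^ r) 1 0 (by positivity) (Or.inl one_ne_zero)
  rw [mul_zero] at e
  simp only [Go]
  rw [mul_zero, e, Int.cast_sub]

end Pool.Agent.Helper81.TH3
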